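import Pool.Agent.X275.GB.OM

/-!
# Independence of the values of `Ω` at `n`, `n + s_1`, ..., `n + s_k` for almost all shifts near bilinear values at pairs of integers with missing digits

The values considered are `ϑ x y + g(x) + h(y)` with ARBITRARY real functions `g`, `h` and a real number `ϑ` of a suitable
size; `x` and `y` run through integers with missing digits (in two bases; the sets of allowed digits are arbitrary with at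
least TWO elements), and `(x, y)` through an ARBITRARY set `S` of at least `1 / L` of all such pairs. For instance: the
integers near the products `x y` of two integers with the decimal digits `0` and `1` only.
Here `L = Θ` is an arbitrary constant, and the shifts are arbitrary integers within the distance `Θ` of the values.
The sets of the shifts can be as thin as `N ^ ε`.

The passage from families of shifts with minimal additive energy to the independence is `Pool.Agent.TH445.OI` (starting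
files); the minimal real additive energy of the values considered here is from `Pool.Agent.X31.M1` - `M3` (in this run).

Definitions used from `Pool.Agent.X275.GB.OM`: `mean N k g`: the mean over all `(r_1, ..., r_k)` in `[N]^k` of
`g (Ω(r_1), ..., Ω(r_k))`; `rate N = log log log N / √(log log N)`; `q1sum N h`: the sum over `ℓ` of Q1 (tuples of positive
integers) with the shifts `h i` in place of `i`; `Indep N C f t s`: for all functions `a` bounded by `1` the mean over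
`n ≤ N` of `a (f n) (Ω(n + t_1), ..., Ω(n + t_j)) (Ω(n + s_1), ..., Ω(n + s_k))` agrees with the mean over `n ≤ N` and
`(r_1, ..., r_k) ∈ [N]^k` of `a (f n) (Ω(n + t_1), ..., Ω(n + t_j)) (Ω(r_1), ..., Ω(r_k))` up to `C rate N`.
-/

set_option autoImplicit false

namespace Pool.Agent.Results.MP_e0aac0_nt.BilinearShifts

open Finset Polynomial Pool.Agent.X275.GB.OM

/-- the integers `0 ≤ n < b ^ M` whose digit at `b ^ j` in base `b` is in `𝒟 j`, for all `j < M` -/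
def Digits (b : ℕ) (𝒟 : ℕ → Finset ℕ) (M : ℕ) : Finset ℕ :=
  (range (b ^ M)).filter (fun n => ∀ j < M, n / b ^ j % b ∈ 𝒟 j)

/-- The sets `𝒟₁ j`, `𝒟₂ j` of allowed digits in the bases `b₁`, `b₂` have at least two elements; the numbers `M₁`, `M₂` of
digits differ at most by the factor `l`; `|ϑ| ≤ L` and `|ϑ| b₁ ^ M₁ b₂ ^ M₂ ≥ N / L`; `S` is a subset of
the product of the two sets of integers with missing digits with at least `1 / L` of its elements, and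
`|ϑ x y + g(x) + h(y)| ≤ N` on `S`. -/
def Fam (b₁ b₂ l : ℕ) (L : ℝ) (N M₁ M₂ : ℕ) (𝒟₁ 𝒟₂ : ℕ → Finset ℕ) (ϑ : ℝ) (g h : ℕ → ℝ) (S : Finset (ℕ × ℕ)) : Prop :=
  (∀ j, 𝒟₁ j ⊆ range b₁ ∧ 2 ≤ (𝒟₁ j).card) ∧ (∀ j, 𝒟₂ j ⊆ range b₂ ∧ 2 ≤ (𝒟₂ j).card) ∧
  M₁ ≤ l * M₂ ∧ M₂ ≤ l * M₁ ∧ |ϑ| ≤ L ∧
  (N : ℝ) / L ≤ |ϑ| * ((b₁ : ℝ) ^ M₁ * (b₂ : ℝ) ^ M₂) ∧
  S ⊆ Digits b₁ 𝒟₁ M₁ ×ˢ Digits b₂ 𝒟₂ M₂ ∧
  ((Digits b₁ 𝒟₁ M₁).card * (Digits b₂ 𝒟₂ M₂).card : ℝ) / L ≤ S.card ∧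
  ∀ p ∈ S, |ϑ * ((p.1 : ℝ) * p.2) + g p.1 + h p.2| ≤ N

lemma dat_of {b₁ b₂ l : ℕ} {L : ℝ} {N M₁ M₂ : ℕ} {𝒟₁ 𝒟₂ : ℕ → Finset ℕ} {ϑ : ℝ} {g h : ℕ → ℝ} {S : Finset (ℕ × ℕ)}
    (H : Fam b₁ b₂ l L N M₁ M₂ 𝒟₁ 𝒟₂ ϑ g h S) :
    Pool.Agent.X275.GB.PS.FBil b₁ b₂ l L N M₁ M₂ 𝒟₁ 𝒟₂ ϑ g h S := H

/-- Let `b₁, b₂ ≥ 2`, `l ≥ 1`; the functions `g` and `h₁` are arbitrary, and let `Θ ≥ 1`.

(1) Side information: a label `f n` with at most `(log N) ^ κ` values, and the values of `Ω` at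
`n + t_1, ..., n + t_j` (for example `n, n + 1, ..., n + j - 1`). For all data with `Fam b₁ b₂ l Θ N M₁_i M₂_i 𝒟₁_i 𝒟₂_i ϑ_i g_i h₁_i S_i`
for `i = 1, ..., k`, and arbitrary natural numbers `s_i(n)` with `|s_i(n) - (ϑ_i x y + g_i(x) + h₁_i(y))| ≤ Θ`, the following holds for all
`(n_1, ..., n_k)` in `S_1 × ... × S_k`, apart from a proportion of at most `(log N) ^ (-κ)`: with `h_i = s_i(n_i)` the values
`Ω(n + h_1), ..., Ω(n + h_k)` are jointly independent, independent of the side information, and distributed as the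
values of `Ω` on `[N]`, up to `C log log log N / √(log log N)` in total variation.

(2) In particular, the sum of Q1 for the shifts `0, h_1, ..., h_k` is at most `C log log log N / √(log log N)` for all
`(n_1, ..., n_k)` in `S_1 × ... × S_k`, apart from a proportion of at most `(log N) ^ (-κ)`. -/
theorem result (b₁ b₂ l : ℕ) (hb₁ : 2 ≤ b₁) (hb₂ : 2 ≤ b₂) (hl : 1 ≤ l) (B : ℕ) (Θ : ℝ) (hΘ : 1 ≤ Θ) :
    (∀ j k : ℕ, ∃ κ : ℝ, 0 < κ ∧ ∃ C : ℝ, 0 < C ∧ ∃ N₀ : ℕ, ∀ N : ℕ, N₀ ≤ N →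
      ∀ f₀ : ℕ → ℕ, (∀ n, (f₀ n : ℝ) ≤ Real.log N ^ κ) → ∀ t : Fin j → ℕ, (∀ i, t i ≤ B * N) →
      ∀ (M₁ M₂ : Fin k → ℕ) (𝒟₁ 𝒟₂ : Fin k → ℕ → Finset ℕ) (ϑ : Fin k → ℝ) (g h₁ : Fin k → ℕ → ℝ)
        (S : Fin k → Finset (ℕ × ℕ)), (∀ i, Fam b₁ b₂ l Θ N (M₁ i) (M₂ i) (𝒟₁ i) (𝒟₂ i) (ϑ i) (g i) (h₁ i) (S i)) →
      ∀ s : Fin k → ℕ × ℕ → ℕ, (∀ i, ∀ n ∈ S i, |(s i n : ℝ) - (ϑ i * ((n.1 : ℝ) * n.2) + g i n.1 + h₁ i n.2)| ≤ Θ) →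
      ∃ E ⊆ Fintype.piFinset S, (E.card : ℝ) ≤ (∏ i, ((S i).card : ℝ)) * Real.log N ^ (-κ) ∧
        ∀ n ∈ Fintype.piFinset S, n ∉ E → Indep N C f₀ t (fun i => s i (n i))) ∧
    (∀ k : ℕ, ∃ κ : ℝ, 0 < κ ∧ ∃ C : ℝ, 0 < C ∧ ∃ N₀ : ℕ, ∀ N : ℕ, N₀ ≤ N →
      ∀ (M₁ M₂ : Fin k → ℕ) (𝒟₁ 𝒟₂ : Fin k → ℕ → Finset ℕ) (ϑ : Fin k → ℝ) (g h₁ : Fin k → ℕ → ℝ)
        (S : Fin k → Finset (ℕ × ℕ)), (∀ i, Fam b₁ b₂ l Θ N (M₁ i) (M₂ i) (𝒟₁ i) (𝒟₂ i) (ϑ i) (g i) (h₁ i) (S i)) →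
      ∀ s : Fin k → ℕ × ℕ → ℕ, (∀ i, ∀ n ∈ S i, |(s i n : ℝ) - (ϑ i * ((n.1 : ℝ) * n.2) + g i n.1 + h₁ i n.2)| ≤ Θ) →
      ∃ E ⊆ Fintype.piFinset S, (E.card : ℝ) ≤ (∏ i, ((S i).card : ℝ)) * Real.log N ^ (-κ) ∧
        ∀ n ∈ Fintype.piFinset S, n ∉ E →
          q1sum N (Fin.cons 0 (fun i => s i (n i)) : Fin (k + 1) → ℕ) ≤ C * rate N) := by
  have key : ∀ j k : ℕ, ∃ κ : ℝ, 0 < κ ∧ ∃ C : ℝ, 0 < C ∧ ∃ N₀ : ℕ, ∀ N : ℕ, N₀ ≤ N →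
      ∀ f₀ : ℕ → ℕ, (∀ n, (f₀ n : ℝ) ≤ Real.log N ^ κ) → ∀ t : Fin j → ℕ, (∀ i, t i ≤ B * N) →
      ∀ (M₁ M₂ : Fin k → ℕ) (𝒟₁ 𝒟₂ : Fin k → ℕ → Finset ℕ) (ϑ : Fin k → ℝ) (g h₁ : Fin k → ℕ → ℝ)
        (S : Fin k → Finset (ℕ × ℕ)), (∀ i, Fam b₁ b₂ l Θ N (M₁ i) (M₂ i) (𝒟₁ i) (𝒟₂ i) (ϑ i) (g i) (h₁ i) (S i)) →
      ∀ s : Fin k → ℕ × ℕ → ℕ, (∀ i, ∀ n ∈ S i, |(s i n : ℝ) - (ϑ i * ((n.1 : ℝ) * n.2) + g i n.1 + h₁ i n.2)| ≤ Θ) →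
      ∃ E ⊆ Fintype.piFinset S, (E.card : ℝ) ≤ (∏ i, ((S i).card : ℝ)) * Real.log N ^ (-κ) ∧
        ∀ n ∈ Fintype.piFinset S, n ∉ E → Indep N C f₀ t (fun i => s i (n i)) := by
    intro j k
    obtain ⟨κ, hκ, C, hC, N₀, h0⟩ := Pool.Agent.X275.GB.OM.main (Pool.Agent.X275.GB.PS.LSch_bil hb₁ hb₂ l hl)
      (mono_bil b₁ b₂ l) j k B Θ hΘ
    refine ⟨κ, hκ, C, hC, N₀, fun N hN f₀ hf₀ t ht M₁ M₂ 𝒟₁ 𝒟₂ ϑ g h₁ S hfam s hs => ?_⟩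
    exact h0 N hN f₀ hf₀ t ht S (fun i n => (ϑ i * ((n.1 : ℝ) * n.2) + g i n.1 + h₁ i n.2)) (fun i => ⟨M₁ i, M₂ i, 𝒟₁ i, 𝒟₂ i, ϑ i, g i, h₁ i, dat_of (hfam i), fun _ => rfl⟩) s hs
  refine ⟨key, fun k => ?_⟩
  obtain ⟨κ, hκ, C, hC, N₀, h0⟩ := key 1 k
  refine ⟨κ, hκ, C, hC, N₀ + 1, fun N hN M₁ M₂ 𝒟₁ 𝒟₂ ϑ g h₁ S hfam s hs => ?_⟩
  have hN1 : 1 ≤ N := by omega
  obtain ⟨E, hE1, hE2, hE3⟩ := h0 N (by omega) (fun _ => 0) (fun n => by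
    simp only [Nat.cast_zero]
    exact Real.rpow_nonneg (Real.log_nonneg (by exact_mod_cast hN1)) _) (fun _ => 0) (fun _ => Nat.zero_le _) M₁ M₂ 𝒟₁ 𝒟₂ ϑ g h₁ S hfam s hs
  exact ⟨E, hE1, hE2, fun n hn hnE => q1_of N k C _ hN1 (hE3 n hn hnE)⟩

end Pool.Agent.Results.MP_e0aac0_nt.BilinearShifts
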