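import Pool.Agent.X23.EL4

/-!
# Bounded functions of the values of `Ω` at any number of consecutive integers

Q1 in its equivalent formulation, for the functions `a(l_1) a(l_2) ⋯ a(l_k)` and every number `k` of consecutive integers
(or of consecutive terms of an arithmetic progression): the averages of `a(Ω(n)) a(Ω(n + h)) ⋯ a(Ω(n + (k - 1) h))` are
bounded, at almost all scales, by one half of the mean of `|a(Ω(m₁)) + a(Ω(m₂))|` over independent `m₁`, `m₂`. If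
`|a| = 1` then also quadratic phases are allowed, with the bound `√((1 + |M|²) / 2)`, where `M` is the mean of `a(Ω(m))`.
Examples: for `a(l) = z ^ l`, `|z| = 1`, `z ≠ 1`, one has `M → 0`, so the bound is `1 / √2`; for a primitive `m`-th root of
unity the first bound is `(1 / 2m) ∑_j |1 + z ^ j|`, which is `1 / 2` for `m = 2`. The bounds do not depend on `k`.

Used from the starting files: the library `Pool.Agent.Y842.QY` (helper842) on the correlations of two functions of `Ω`.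
-/

set_option autoImplicit false

namespace Pool.Agent.Results.MP_e0aac0_nt.BlockProducts

open Finset Filter Topology

open Classical in
/-- `E` has logarithmic density zero -/
def LogDensityZero (E : Set ℕ) : Prop := Tendsto
  (fun X : ℕ => (∑ n ∈ Icc 1 X, if n ∈ E then (1 : ℝ) / n else 0) / Real.log X) atTop (nhds 0)

/-- `e(x) = exp(2 π i x)` -/
noncomputable def e (x : ℝ) : ℂ := Complex.exp (2 * Real.pi * x * Complex.I)

/-- the number of prime factors, counted with multiplicity -/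
def Om (n : ℕ) : ℕ := ArithmeticFunction.cardFactors n

/-- `a(Ω(n)) a(Ω(n + h)) ⋯ a(Ω(n + (k - 1) h))` -/
noncomputable def block (a : ℕ → ℂ) (k h n : ℕ) : ℂ := ∏ i ∈ range k, a (Om (n + i * h))

/-- the mean of `a(Ω(m))` over `m ≤ N` -/
noncomputable def mean (a : ℕ → ℂ) (N : ℕ) : ℂ := (∑ m ∈ Icc 1 N, a (Om m)) / N

/-- the mean of `|a(Ω(m₁)) + a(Ω(m₂))|` over `m₁, m₂ ≤ N` -/
noncomputable def doubleMean (a : ℕ → ℂ) (N : ℕ) : ℝ :=
  (∑ m₁ ∈ Icc 1 N, ∑ m₂ ∈ Icc 1 N, ‖a (Om m₁) + a (Om m₂)‖) / (N : ℝ) ^ 2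

/-- **Theorem.** (A) For every `a : ℕ → ℂ` with `|a| ≤ 1` there is a set `E` of logarithmic density zero such that for
all `k, h ≥ 1` and `ε > 0`, all large `N` outside `E` and all `y ≤ N`:
`|∑_{n ≤ y} a(Ω(n)) a(Ω(n + h)) ⋯ a(Ω(n + (k - 1) h))| ≤ y D_N / 2 + ε N`, where `D_N` is the mean of
`|a(Ω(m₁)) + a(Ω(m₂))|` over `m₁, m₂ ≤ N`.
(B) If `|a| = 1`, then, for `N` outside a set of logarithmic density zero, for all real `α`, `β` and all `y ≤ N`: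
`|∑_{n ≤ y} a(Ω(n)) ⋯ a(Ω(n + (k - 1) h)) e(β n² + α n)| ≤ y √((1 + |M_N|²) / 2) + ε N`, where `M_N` is the mean of
`a(Ω(m))` over `m ≤ N`.
(C) For `a(l) = z ^ l`, `|z| = 1`, `z ≠ 1`: `M_N → 0`.
(D) For `a(l) = z ^ l`, `z` a primitive `m`-th root of unity: `D_N / 2 → (1 / 2m) ∑_{j < m} |1 + z ^ j|`. -/
theorem result :
    (∀ a : ℕ → ℂ, (∀ l, ‖a l‖ ≤ 1) → ∃ E : Set ℕ, LogDensityZero E ∧
      ∀ k h : ℕ, 1 ≤ k → 1 ≤ h → ∀ ε : ℝ, 0 < ε → ∃ N₀ : ℕ, ∀ N : ℕ, N₀ ≤ N → N ∉ E → ∀ y : ℕ, y ≤ N →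
        ‖∑ n ∈ Icc 1 y, block a k h n‖ ≤ y * (doubleMean a N / 2) + ε * N) ∧
    (∀ a : ℕ → ℂ, (∀ l, ‖a l‖ = 1) → ∃ E : Set ℕ, LogDensityZero E ∧
      ∀ k h : ℕ, 1 ≤ k → 1 ≤ h → ∀ ε : ℝ, 0 < ε → ∃ N₀ : ℕ, ∀ N : ℕ, N₀ ≤ N → N ∉ E →
        ∀ (α β : ℝ) (y : ℕ), y ≤ N → ‖∑ n ∈ Icc 1 y, block a k h n * e (β * (n : ℝ) ^ 2 + α * n)‖ ≤
          y * Real.sqrt ((1 + ‖mean a N‖ ^ 2) / 2) + ε * N) ∧
    (∀ z : ℂ, ‖z‖ = 1 → z ≠ 1 → Tendsto (fun N => mean (fun l => z ^ l) N) atTop (𝓝 0)) ∧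
    (∀ m : ℕ, 1 ≤ m → ∀ z : ℂ, IsPrimitiveRoot z m →
      Tendsto (fun N => doubleMean (fun l => z ^ l) N / 2) atTop (𝓝 (1 / (2 * m) * ∑ j ∈ range m, ‖1 + z ^ j‖))) :=
  ⟨Pool.Agent.X23.EL.first, Pool.Agent.X23.EL.second, Pool.Agent.X23.EL.mean_pow,
    fun m hm z hz => Pool.Agent.X23.EL.dbl_root m hm z hz⟩

end Pool.Agent.Results.MP_e0aac0_nt.BlockProducts
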