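import Pool.Agent.X275.GB.OM

/-!
# Independence of the values of `Ω` at `n`, `n + s_1`, ..., `n + s_k` for almost all shifts near the values of polynomials at integers with missing digits

`f` is an arbitrary real polynomial of degree `d ≥ 2` (only the size of the leading coefficient is restricted), `C` is the
set of the integers with `M` digits in base `b` whose digit at `b ^ j` is in `𝒟 j`, where the sets `𝒟 j` of allowed digits
are arbitrary with at least TWO elements (for instance: the integers with the decimal digits `0` and `1` only); the values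
considered are `f(n)`, where `n` runs through an ARBITRARY subset `S` of `C` with at least `#C / L` elements. The starting
files treat integral quadratic polynomials and the full sets `C`.
Here `L = Θ` is an arbitrary constant, and the shifts are arbitrary integers within the distance `Θ` of the values.
The sets of the shifts can be as thin as `N ^ ε`.

The passage from families of shifts with minimal additive energy to the independence is `Pool.Agent.TH445.OI` (starting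
files); the minimal real additive energy of the values considered here is from `Pool.Agent.X31.K1` - `K10` (in this run).

Definitions used from `Pool.Agent.X275.GB.OM`: `mean N k g`: the mean over all `(r_1, ..., r_k)` in `[N]^k` of
`g (Ω(r_1), ..., Ω(r_k))`; `rate N = log log log N / √(log log N)`; `q1sum N h`: the sum over `ℓ` of Q1 (tuples of positive
integers) with the shifts `h i` in place of `i`; `Indep N C f t s`: for all functions `a` bounded by `1` the mean over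
`n ≤ N` of `a (f n) (Ω(n + t_1), ..., Ω(n + t_j)) (Ω(n + s_1), ..., Ω(n + s_k))` agrees with the mean over `n ≤ N` and
`(r_1, ..., r_k) ∈ [N]^k` of `a (f n) (Ω(n + t_1), ..., Ω(n + t_j)) (Ω(r_1), ..., Ω(r_k))` up to `C rate N`.
-/

set_option autoImplicit false

namespace Pool.Agent.Results.MP_e0aac0_nt.MissingDigitShifts

open Finset Polynomial Pool.Agent.X275.GB.OM

/-- the integers `0 ≤ n < b ^ M` whose digit at `b ^ j` in base `b` is in `𝒟 j`, for all `j < M` -/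
def Digits (b : ℕ) (𝒟 : ℕ → Finset ℕ) (M : ℕ) : Finset ℕ :=
  (range (b ^ M)).filter (fun n => ∀ j < M, n / b ^ j % b ∈ 𝒟 j)

/-- `S` is a subset with at least `#(Digits b 𝒟 M) / L` elements of the set `Digits b 𝒟 M`, where all sets `𝒟 j`
of allowed digits have at least two elements; `f` is a real polynomial of degree at most `d`, the coefficient of `x ^ d`
is at most `L` and at least `N / (b ^ (d M) L)` in absolute value, and `|f| ≤ N` on `S`. -/
def Fam (b d : ℕ) (L : ℝ) (N M : ℕ) (𝒟 : ℕ → Finset ℕ) (f : ℝ[X]) (S : Finset ℕ) : Prop :=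
  (∀ j, 𝒟 j ⊆ range b ∧ 2 ≤ (𝒟 j).card) ∧
  f.natDegree ≤ d ∧ |f.coeff d| ≤ L ∧ (N : ℝ) / L ≤ |f.coeff d| * (b : ℝ) ^ (d * M) ∧
  S ⊆ Digits b 𝒟 M ∧ ((Digits b 𝒟 M).card : ℝ) / L ≤ S.card ∧ ∀ n ∈ S, |f.eval (n : ℝ)| ≤ N

lemma dat_of {b d : ℕ} {L : ℝ} {N M : ℕ} {𝒟 : ℕ → Finset ℕ} {f : ℝ[X]} {S : Finset ℕ} (H : Fam b d L N M 𝒟 f S) :
    Pool.Agent.X275.GB.PS.FDg b d L N M 𝒟 f S := H

/-- Let `b ≥ 2`, `d ≥ 2`, and let `Θ ≥ 1`.

(1) Side information: a label `f n` with at most `(log N) ^ κ` values, and the values of `Ω` at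
`n + t_1, ..., n + t_j` (for example `n, n + 1, ..., n + j - 1`). For all data with `Fam b d Θ N M_i 𝒟_i f_i S_i`
for `i = 1, ..., k`, and arbitrary natural numbers `s_i(n)` with `|s_i(n) - (f_i(n))| ≤ Θ`, the following holds for all
`(n_1, ..., n_k)` in `S_1 × ... × S_k`, apart from a proportion of at most `(log N) ^ (-κ)`: with `h_i = s_i(n_i)` the values
`Ω(n + h_1), ..., Ω(n + h_k)` are jointly independent, independent of the side information, and distributed as the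
values of `Ω` on `[N]`, up to `C log log log N / √(log log N)` in total variation.

(2) In particular, the sum of Q1 for the shifts `0, h_1, ..., h_k` is at most `C log log log N / √(log log N)` for all
`(n_1, ..., n_k)` in `S_1 × ... × S_k`, apart from a proportion of at most `(log N) ^ (-κ)`. -/
theorem result (b d : ℕ) (hb : 2 ≤ b) (hd : 2 ≤ d) (B : ℕ) (Θ : ℝ) (hΘ : 1 ≤ Θ) :
    (∀ j k : ℕ, ∃ κ : ℝ, 0 < κ ∧ ∃ C : ℝ, 0 < C ∧ ∃ N₀ : ℕ, ∀ N : ℕ, N₀ ≤ N →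
      ∀ f₀ : ℕ → ℕ, (∀ n, (f₀ n : ℝ) ≤ Real.log N ^ κ) → ∀ t : Fin j → ℕ, (∀ i, t i ≤ B * N) →
      ∀ (M : Fin k → ℕ) (𝒟 : Fin k → ℕ → Finset ℕ) (f : Fin k → ℝ[X]) (S : Fin k → Finset ℕ), (∀ i, Fam b d Θ N (M i) (𝒟 i) (f i) (S i)) →
      ∀ s : Fin k → ℕ → ℕ, (∀ i, ∀ n ∈ S i, |(s i n : ℝ) - (f i).eval (n : ℝ)| ≤ Θ) →
      ∃ E ⊆ Fintype.piFinset S, (E.card : ℝ) ≤ (∏ i, ((S i).card : ℝ)) * Real.log N ^ (-κ) ∧
        ∀ n ∈ Fintype.piFinset S, n ∉ E → Indep N C f₀ t (fun i => s i (n i))) ∧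
    (∀ k : ℕ, ∃ κ : ℝ, 0 < κ ∧ ∃ C : ℝ, 0 < C ∧ ∃ N₀ : ℕ, ∀ N : ℕ, N₀ ≤ N →
      ∀ (M : Fin k → ℕ) (𝒟 : Fin k → ℕ → Finset ℕ) (f : Fin k → ℝ[X]) (S : Fin k → Finset ℕ), (∀ i, Fam b d Θ N (M i) (𝒟 i) (f i) (S i)) →
      ∀ s : Fin k → ℕ → ℕ, (∀ i, ∀ n ∈ S i, |(s i n : ℝ) - (f i).eval (n : ℝ)| ≤ Θ) →
      ∃ E ⊆ Fintype.piFinset S, (E.card : ℝ) ≤ (∏ i, ((S i).card : ℝ)) * Real.log N ^ (-κ) ∧
        ∀ n ∈ Fintype.piFinset S, n ∉ E →
          q1sum N (Fin.cons 0 (fun i => s i (n i)) : Fin (k + 1) → ℕ) ≤ C * rate N) := by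
  have key : ∀ j k : ℕ, ∃ κ : ℝ, 0 < κ ∧ ∃ C : ℝ, 0 < C ∧ ∃ N₀ : ℕ, ∀ N : ℕ, N₀ ≤ N →
      ∀ f₀ : ℕ → ℕ, (∀ n, (f₀ n : ℝ) ≤ Real.log N ^ κ) → ∀ t : Fin j → ℕ, (∀ i, t i ≤ B * N) →
      ∀ (M : Fin k → ℕ) (𝒟 : Fin k → ℕ → Finset ℕ) (f : Fin k → ℝ[X]) (S : Fin k → Finset ℕ), (∀ i, Fam b d Θ N (M i) (𝒟 i) (f i) (S i)) →
      ∀ s : Fin k → ℕ → ℕ, (∀ i, ∀ n ∈ S i, |(s i n : ℝ) - (f i).eval (n : ℝ)| ≤ Θ) →
      ∃ E ⊆ Fintype.piFinset S, (E.card : ℝ) ≤ (∏ i, ((S i).card : ℝ)) * Real.log N ^ (-κ) ∧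
        ∀ n ∈ Fintype.piFinset S, n ∉ E → Indep N C f₀ t (fun i => s i (n i)) := by
    intro j k
    obtain ⟨κ, hκ, C, hC, N₀, h0⟩ := Pool.Agent.X275.GB.OM.main (Pool.Agent.X275.GB.PS.LSch_dg hb hd)
      (mono_dg b d) j k B Θ hΘ
    refine ⟨κ, hκ, C, hC, N₀, fun N hN f₀ hf₀ t ht M 𝒟 f S hfam s hs => ?_⟩
    exact h0 N hN f₀ hf₀ t ht S (fun i n => (f i).eval (n : ℝ)) (fun i => ⟨M i, 𝒟 i, f i, dat_of (hfam i), fun _ => rfl⟩) s hs
  refine ⟨key, fun k => ?_⟩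
  obtain ⟨κ, hκ, C, hC, N₀, h0⟩ := key 1 k
  refine ⟨κ, hκ, C, hC, N₀ + 1, fun N hN M 𝒟 f S hfam s hs => ?_⟩
  have hN1 : 1 ≤ N := by omega
  obtain ⟨E, hE1, hE2, hE3⟩ := h0 N (by omega) (fun _ => 0) (fun n => by
    simp only [Nat.cast_zero]
    exact Real.rpow_nonneg (Real.log_nonneg (by exact_mod_cast hN1)) _) (fun _ => 0) (fun _ => Nat.zero_le _) M 𝒟 f S hfam s hs
  exact ⟨E, hE1, hE2, fun n hn hnE => q1_of N k C _ hN1 (hE3 n hn hnE)⟩

end Pool.Agent.Results.MP_e0aac0_nt.MissingDigitShifts
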