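import Pool.Agent.X275.GB.OM

/-!
# Independence of the values of `Ω` at `n`, `n + s_1`, ..., `n + s_k` for almost all shifts near real powers of integers with missing digits

`f(t) = ∑ a_x t ^ x` is a finite real combination of real powers of `t` whose largest exponent `c > 0` is NOT an integer
(for instance `t ^ c` or `√t`), and the values considered are `k + ϑ f(n)`, where `n` runs through an ARBITRARY subset `S`
with at least `1 / L` of the elements of the set of the integers with `M` digits in base `b` whose digit at `b ^ j` is in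
`𝒟 j`; the sets `𝒟 j` of allowed digits are arbitrary with at least TWO elements.
Here `L = Θ` is an arbitrary constant, and the shifts are arbitrary integers within the distance `Θ` of the values.
The sets of the shifts can be as thin as `N ^ ε`.

The passage from families of shifts with minimal additive energy to the independence is `Pool.Agent.TH445.OI` (starting
files); the minimal real additive energy of the values considered here is from `Pool.Agent.X31.R1` - `R3` (in this run).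

Definitions used from `Pool.Agent.X275.GB.OM`: `mean N k g`: the mean over all `(r_1, ..., r_k)` in `[N]^k` of
`g (Ω(r_1), ..., Ω(r_k))`; `rate N = log log log N / √(log log N)`; `q1sum N h`: the sum over `ℓ` of Q1 (tuples of positive
integers) with the shifts `h i` in place of `i`; `Indep N C f t s`: for all functions `a` bounded by `1` the mean over
`n ≤ N` of `a (f n) (Ω(n + t_1), ..., Ω(n + t_j)) (Ω(n + s_1), ..., Ω(n + s_k))` agrees with the mean over `n ≤ N` and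
`(r_1, ..., r_k) ∈ [N]^k` of `a (f n) (Ω(n + t_1), ..., Ω(n + t_j)) (Ω(r_1), ..., Ω(r_k))` up to `C rate N`.
-/

set_option autoImplicit false

namespace Pool.Agent.Results.MP_e0aac0_nt.RealPowerShifts

open Finset Polynomial Pool.Agent.X275.GB.OM

/-- the integers `0 ≤ n < b ^ M` whose digit at `b ^ j` in base `b` is in `𝒟 j`, for all `j < M` -/
def Digits (b : ℕ) (𝒟 : ℕ → Finset ℕ) (M : ℕ) : Finset ℕ :=
  (range (b ^ M)).filter (fun n => ∀ j < M, n / b ^ j % b ∈ 𝒟 j)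

/-- the generalised polynomial with the exponents `x ∈ F` and the coefficients `a x` -/
noncomputable def f (F : Finset ℝ) (a : ℝ → ℝ) (t : ℝ) : ℝ := ∑ x ∈ F, a x * t ^ x

/-- The sets `𝒟 j` of allowed digits have at least two elements; `|ϑ| ≤ L` and `|ϑ| b ^ (M c) ≥ N / L`; `S` is
a subset of the set of the integers with missing digits with at least `1 / L` of its elements, and
`|k + ϑ f(n)| ≤ N` on `S`. -/
def Fam (b : ℕ) (F : Finset ℝ) (a : ℝ → ℝ) (c : ℝ) (L : ℝ) (N M : ℕ) (𝒟 : ℕ → Finset ℕ) (ϑ k : ℝ) (S : Finset ℕ) : Prop :=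
  (∀ j, 𝒟 j ⊆ range b ∧ 2 ≤ (𝒟 j).card) ∧ |ϑ| ≤ L ∧ (N : ℝ) / L ≤ |ϑ| * ((b : ℝ) ^ M) ^ c ∧
  S ⊆ Digits b 𝒟 M ∧ ((Digits b 𝒟 M).card : ℝ) / L ≤ S.card ∧ ∀ n ∈ S, |k + ϑ * f F a n| ≤ N

lemma dat_of {b : ℕ} {F : Finset ℝ} {a : ℝ → ℝ} {c : ℝ} {L : ℝ} {N M : ℕ} {𝒟 : ℕ → Finset ℕ} {ϑ k : ℝ} {S : Finset ℕ}
    (H : Fam b F a c L N M 𝒟 ϑ k S) :
    Pool.Agent.X275.GB.PS.FRp b c L N M 𝒟 ϑ k (fun n => Pool.Agent.X31.gp F a n) S := H

/-- Let `b ≥ 2`, let `F` be a finite set of real numbers whose maximum `c > 0` is not an integer, `a c ≠ 0`, and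
`f(t) = ∑_{x ∈ F} a x * t ^ x`, and let `Θ ≥ 1`.

(1) Side information: a label `f n` with at most `(log N) ^ κ` values, and the values of `Ω` at
`n + t_1, ..., n + t_j` (for example `n, n + 1, ..., n + j - 1`). For all data with `Fam b F a c Θ N M_i 𝒟_i ϑ_i k₁_i S_i`
for `i = 1, ..., k`, and arbitrary natural numbers `s_i(n)` with `|s_i(n) - (k₁_i + ϑ_i f(n))| ≤ Θ`, the following holds for all
`(n_1, ..., n_k)` in `S_1 × ... × S_k`, apart from a proportion of at most `(log N) ^ (-κ)`: with `h_i = s_i(n_i)` the values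
`Ω(n + h_1), ..., Ω(n + h_k)` are jointly independent, independent of the side information, and distributed as the
values of `Ω` on `[N]`, up to `C log log log N / √(log log N)` in total variation.

(2) In particular, the sum of Q1 for the shifts `0, h_1, ..., h_k` is at most `C log log log N / √(log log N)` for all
`(n_1, ..., n_k)` in `S_1 × ... × S_k`, apart from a proportion of at most `(log N) ^ (-κ)`. -/
theorem result (b : ℕ) (hb : 2 ≤ b) (F : Finset ℝ) (a : ℝ → ℝ) (c : ℝ) (hcF : c ∈ F) (hmax : ∀ x ∈ F, x ≤ c)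
    (hac : a c ≠ 0) (hc : 0 < c) (hcn : ∀ n : ℕ, c ≠ n) (B : ℕ) (Θ : ℝ) (hΘ : 1 ≤ Θ) :
    (∀ j k : ℕ, ∃ κ : ℝ, 0 < κ ∧ ∃ C : ℝ, 0 < C ∧ ∃ N₀ : ℕ, ∀ N : ℕ, N₀ ≤ N →
      ∀ f₀ : ℕ → ℕ, (∀ n, (f₀ n : ℝ) ≤ Real.log N ^ κ) → ∀ t : Fin j → ℕ, (∀ i, t i ≤ B * N) →
      ∀ (M : Fin k → ℕ) (𝒟 : Fin k → ℕ → Finset ℕ) (ϑ k₁ : Fin k → ℝ) (S : Fin k → Finset ℕ), (∀ i, Fam b F a c Θ N (M i) (𝒟 i) (ϑ i) (k₁ i) (S i)) →
      ∀ s : Fin k → ℕ → ℕ, (∀ i, ∀ n ∈ S i, |(s i n : ℝ) - (k₁ i + ϑ i * f F a n)| ≤ Θ) →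
      ∃ E ⊆ Fintype.piFinset S, (E.card : ℝ) ≤ (∏ i, ((S i).card : ℝ)) * Real.log N ^ (-κ) ∧
        ∀ n ∈ Fintype.piFinset S, n ∉ E → Indep N C f₀ t (fun i => s i (n i))) ∧
    (∀ k : ℕ, ∃ κ : ℝ, 0 < κ ∧ ∃ C : ℝ, 0 < C ∧ ∃ N₀ : ℕ, ∀ N : ℕ, N₀ ≤ N →
      ∀ (M : Fin k → ℕ) (𝒟 : Fin k → ℕ → Finset ℕ) (ϑ k₁ : Fin k → ℝ) (S : Fin k → Finset ℕ), (∀ i, Fam b F a c Θ N (M i) (𝒟 i) (ϑ i) (k₁ i) (S i)) →
      ∀ s : Fin k → ℕ → ℕ, (∀ i, ∀ n ∈ S i, |(s i n : ℝ) - (k₁ i + ϑ i * f F a n)| ≤ Θ) →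
      ∃ E ⊆ Fintype.piFinset S, (E.card : ℝ) ≤ (∏ i, ((S i).card : ℝ)) * Real.log N ^ (-κ) ∧
        ∀ n ∈ Fintype.piFinset S, n ∉ E →
          q1sum N (Fin.cons 0 (fun i => s i (n i)) : Fin (k + 1) → ℕ) ≤ C * rate N) := by
  have key : ∀ j k : ℕ, ∃ κ : ℝ, 0 < κ ∧ ∃ C : ℝ, 0 < C ∧ ∃ N₀ : ℕ, ∀ N : ℕ, N₀ ≤ N →
      ∀ f₀ : ℕ → ℕ, (∀ n, (f₀ n : ℝ) ≤ Real.log N ^ κ) → ∀ t : Fin j → ℕ, (∀ i, t i ≤ B * N) →
      ∀ (M : Fin k → ℕ) (𝒟 : Fin k → ℕ → Finset ℕ) (ϑ k₁ : Fin k → ℝ) (S : Fin k → Finset ℕ), (∀ i, Fam b F a c Θ N (M i) (𝒟 i) (ϑ i) (k₁ i) (S i)) →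
      ∀ s : Fin k → ℕ → ℕ, (∀ i, ∀ n ∈ S i, |(s i n : ℝ) - (k₁ i + ϑ i * f F a n)| ≤ Θ) →
      ∃ E ⊆ Fintype.piFinset S, (E.card : ℝ) ≤ (∏ i, ((S i).card : ℝ)) * Real.log N ^ (-κ) ∧
        ∀ n ∈ Fintype.piFinset S, n ∉ E → Indep N C f₀ t (fun i => s i (n i)) := by
    intro j k
    obtain ⟨κ, hκ, C, hC, N₀, h0⟩ := Pool.Agent.X275.GB.OM.main (Pool.Agent.X275.GB.PS.LSch_rp hb F a c hcF hmax hac hc hcn)
      (mono_rp b F a c) j k B Θ hΘ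
    refine ⟨κ, hκ, C, hC, N₀, fun N hN f₀ hf₀ t ht M 𝒟 ϑ k₁ S hfam s hs => ?_⟩
    exact h0 N hN f₀ hf₀ t ht S (fun i n => (k₁ i + ϑ i * f F a n)) (fun i => ⟨M i, 𝒟 i, ϑ i, k₁ i, dat_of (hfam i), fun _ => rfl⟩) s hs
  refine ⟨key, fun k => ?_⟩
  obtain ⟨κ, hκ, C, hC, N₀, h0⟩ := key 1 k
  refine ⟨κ, hκ, C, hC, N₀ + 1, fun N hN M 𝒟 ϑ k₁ S hfam s hs => ?_⟩
  have hN1 : 1 ≤ N := by omega
  obtain ⟨E, hE1, hE2, hE3⟩ := h0 N (by omega) (fun _ => 0) (fun n => by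
    simp only [Nat.cast_zero]
    exact Real.rpow_nonneg (Real.log_nonneg (by exact_mod_cast hN1)) _) (fun _ => 0) (fun _ => Nat.zero_le _) M 𝒟 ϑ k₁ S hfam s hs
  exact ⟨E, hE1, hE2, fun n hn hnE => q1_of N k C _ hN1 (hE3 n hn hnE)⟩

end Pool.Agent.Results.MP_e0aac0_nt.RealPowerShifts
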